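import Pool.Agent.FLG.ShiftF
import Pool.Agent.FLG.K.GamA
import Pool.Agent.FLG.K.Det
import Pool.Agent.DSTJ.SpecD

/-!
# FLG-Fin-Fro: the equation with its shift operators, Gamma classes and K-theory, as a `Fro`
-/

set_option autoImplicit false

open scoped BigOperators Topology
open Filter
open Pool.Agent.DST.TE Pool.Agent.DSTJ Pool.Agent.DSTJ.Spec

namespace Pool.Agent.FLG.RS

variable {r : ℕ} {D : RS r} {N : ℕ} (n : D.Num N) (t : Fin r → ℂ)

private theorem evK_sub_cc (μ : Fin r → ℤ) (y : Fin r → ℂ) (f : RH r) :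
    evK (y - cc μ) f = evK y f := by
  rw [← evK_add_int μ y (-1) f]
  congr 2
  funext i
  simp only [Pi.sub_apply, cc]
  push_cast
  ring

private theorem gg_ne {y : Fin r → ℂ} (hy : ∀ a ∈ D.Φ, ∀ m : ℤ, pr a y ≠ m) (p : D.W) :
    D.gg t p y ≠ 0 := by
  unfold gg gam
  refine mul_ne_zero (Complex.exp_ne_zero _) (mul_ne_zero (Complex.exp_ne_zero _) ?_)
  refine Finset.prod_ne_zero_iff.2 fun a ha => Complex.Gamma_ne_zero fun k hk => ?_
  apply hy (D.rt p a) (D.rt_mem.2 (mem_of_pos ha)) (-(k + 1 : ℤ))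
  push_cast
  linear_combination hk

private theorem evK_Bk_det {y : Fin r → ℂ} (hy : ∀ a ∈ D.Φ, ∀ m : ℤ, pr a y ≠ m) :
    (Matrix.of fun p i => evK y (D.Bk (n.e i) (n.e p)) : Matrix (Fin N) (Fin N) ℂ).det ≠ 0 := by
  have h1 : (Matrix.of fun p i => evK y (D.Bk (n.e i) (n.e p)) : Matrix (Fin N) (Fin N) ℂ) =
      ((Matrix.of fun p j => D.Bk j p : Matrix D.W D.W (RH r)).map (evK y)).submatrix n.e n.e := by
    ext p i
    rfl
  have h2 : ((Matrix.of fun p j => D.Bk j p : Matrix D.W D.W (RH r)).map (evK y)).det =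
      evK y (Matrix.of fun p j => D.Bk j p : Matrix D.W D.W (RH r)).det := by
    rw [RingHom.map_det]
    rfl
  rw [h1, Matrix.det_submatrix_equiv_self, h2, Bk_det, map_prod]
  refine Finset.prod_ne_zero_iff.2 fun p _ => ?_
  rw [(isB_Bk p).diag, map_prod]
  refine Finset.prod_ne_zero_iff.2 fun b hb => ?_
  rw [map_sub, map_one, evK_chr]
  intro h
  have hb' : b ∈ D.Φ := mem_of_pos (Finset.mem_filter.1 hb).1
  obtain ⟨k, hk⟩ := Complex.exp_eq_one_iff.1 (sub_eq_zero.1 h).symm
  apply hy b hb' k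
  have h2πI : (2 * Real.pi * Complex.I : ℂ) ≠ 0 := Complex.two_pi_I_ne_zero
  have h3 : (2 * Real.pi * Complex.I : ℂ) * pr b y = (2 * Real.pi * Complex.I : ℂ) * k := by
    rw [hk]
    ring
  exact mul_left_cancel₀ h2πI h3

private theorem res_GM {y : Fin r → ℂ} (hy : ∀ a ∈ D.Φ, pr a y ≠ 0) :
    (D.Rm y).submatrix n.e n.e * (D.GM t y).submatrix n.e n.e =
      Matrix.diagonal (fun p => D.gg t (n.e p) y) *
        Matrix.of fun p i => evK y (D.Bk (n.e i) (n.e p)) := by
  rw [Matrix.submatrix_mul_equiv, GM_res t hy]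
  ext p i
  rw [Matrix.submatrix_apply, Matrix.diagonal_mul, Matrix.diagonal_mul]
  rfl

private theorem w1_ne {y : Fin r → ℂ} (hy : (toBase n t).W1 y) : ∀ a ∈ D.Φ, pr a y ≠ 0 :=
  fun a ha h => hy ⟨a, ha⟩ 0 (h.trans Int.cast_zero.symm)

/-- The equation with its shift operators, `Γ`-classes and the basis of `K`-theory. -/
noncomputable def toFro : Fro r N where
  toBase := toBase n t
  G := fun y => (D.GM t y).submatrix n.e n.e
  G_hol := fun y hy i j => GM_diff t (fun a ha m hm => hy ⟨a, ha⟩ m hm) _ _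
  g := fun p y => D.gg t (n.e p) y
  g_hol := fun y hy p => ((gh_gg t (fun a ha m _ => hy ⟨a, ha⟩ m)).diff (n.e p)).self_of_nhds
  g_ne := fun y hy p => gg_ne t (fun a ha m => hy ⟨a, ha⟩ m) _
  B := fun y => Matrix.of fun p i => evK y (D.Bk (n.e i) (n.e p))
  B_per := fun y _ j => by
    ext p i
    exact evK_add_int n.ξ y j _
  B_det := fun y hy => evK_Bk_det n (fun a ha m => hy ⟨a, ha⟩ m)
  RG := fun y hy => res_GM n t (w1_ne n t hy)
  S := fun μ y w => (exists_shift n t μ).choose (fun i => y i * Complex.exp w) (Complex.exp w)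
  S_hol := fun μ p q => by
    have h1 := ((exists_shift n t μ).choose_spec.1 p q).differentiable one_ne_zero
    have h2 : Differentiable ℂ fun x : (Fin r → ℂ) × ℂ =>
        ((fun i => x.1 i * Complex.exp x.2 : Fin r → ℂ), Complex.exp x.2) := by fun_prop
    exact h1.comp h2
  S_det := fun μ y w => (exists_shift n t μ).choose_spec.2.1 _ _
  shift := fun μ y h1 h2 h3 w => by
    refine (exists_shift n t μ).choose_spec.2.2 _ (fun y => Matrix.of fun p i =>
      evK y (D.Bk (n.e i) (n.e p))) ?_ ?_ ?_ y h1 h2 h3 w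
    · intro y hy i j
      exact GM_diff t (fun a ha m hm => hy ⟨a, ha⟩ m hm) _ _
    · intro y _
      ext p i
      exact evK_sub_cc μ y _
    · intro y hy
      exact res_GM n t (w1_ne n t hy)

end Pool.Agent.FLG.RS
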