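import Pool.Agent.FLG.Fin.Fro
import Pool.Agent.FLG.Scale
import Pool.Agent.FLG.D.ToQ
import Pool.Agent.FLG.D.Gs

/-!
# FLG-Fin-Gq: the restriction to the line `ℂ ξ`, as a `GQ`
-/

set_option autoImplicit false

open scoped BigOperators Topology
open Filter
open Pool.Agent.DST Pool.Agent.DST.TE Pool.Agent.DSTJ Pool.Agent.DSTJ.Spec Pool.Agent.FLG.Dl

namespace Pool.Agent.FLG.RS

variable {r : ℕ} {D : RS r} {N : ℕ} (n : D.Num N) (t : Fin r → ℂ)

/-- the point `x ξ` -/
noncomputable def ln0 (x : ℂ) : Fin r → ℂ := fun l => x * (n.ξ l : ℂ)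

/-- enumeration of the positive roots -/
noncomputable def pe (D : RS r) : Fin D.dm ≃ D.Pos := D.Pos.equivFin.symm

/-- the tangent weights along `ξ` -/
noncomputable def wtz (p : Fin N) (k : Fin D.dm) : ℤ :=
  -∑ i, D.rt (n.e p) (pe D k).1 i * n.ξ i

theorem prod_pe {M : Type*} [CommMonoid M] (f : (Fin r → ℤ) → M) :
    ∏ k, f (pe D k).1 = ∏ a ∈ D.Pos, f a := by
  rw [Equiv.prod_comp (pe D) fun a : D.Pos => f a.1]
  exact Finset.prod_coe_sort D.Pos f

theorem sum_pe {M : Type*} [AddCommMonoid M] (f : (Fin r → ℤ) → M) :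
    ∑ k, f (pe D k).1 = ∑ a ∈ D.Pos, f a := by
  rw [Equiv.sum_comp (pe D) fun a : D.Pos => f a.1]
  exact Finset.sum_coe_sort D.Pos f

theorem pr_line (a : Fin r → ℤ) (x : ℂ) :
    pr a (ln0 n x) = ((∑ i, a i * n.ξ i : ℤ) : ℂ) * x := pr_ln0 a n.ξ x

theorem line_smul (x y : ℂ) : (fun i => ln0 n x i * y) = ln0 n (x * y) := by
  funext i
  unfold ln0
  ring

theorem line_smul' (x y : ℂ) : (fun i => y * ln0 n x i) = ln0 n (y * x) := by
  funext i
  unfold ln0
  ring

theorem line_ne {x : ℂ} (hx : x ≠ 0) : ∀ a ∈ D.Φ, pr a (ln0 n x) ≠ 0 := by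
  intro a ha
  rw [pr_line]
  exact mul_ne_zero (Int.cast_ne_zero.2 (ξ_ne n ha)) hx

theorem line_nint {x : ℂ} (hx : x.im ≠ 0) : ∀ a ∈ D.Φ, ∀ m : ℤ, pr a (ln0 n x) ≠ m := by
  intro a ha m h
  rw [pr_line] at h
  have h1 := congrArg Complex.im h
  rw [Complex.mul_im, Complex.intCast_re, Complex.intCast_im, Complex.intCast_im, zero_mul,
    add_zero] at h1
  rcases mul_eq_zero.1 h1 with h2 | h2
  · exact ξ_ne n ha (by exact_mod_cast h2)
  · exact hx h2

theorem wtz_cast (p : Fin N) (k : Fin D.dm) (x : ℂ) :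
    (wtz n p k : ℂ) * x = -pr (D.rt (n.e p) (pe D k).1) (ln0 n x) := by
  rw [pr_line]
  unfold wtz
  push_cast
  ring

theorem wtz_ne (p : Fin N) (k : Fin D.dm) : wtz n p k ≠ 0 :=
  neg_ne_zero.2 (ξ_ne n (D.rt_mem.2 (mem_of_pos (pe D k).2)))

theorem sum_wtz (p : Fin N) : ∑ k, wtz n p k = -dotProduct n.ξ (D.rt (n.e p) D.tr) := by
  unfold wtz
  rw [Finset.sum_neg_distrib]
  congr 1
  rw [sum_pe fun a => ∑ i, D.rt (n.e p) a i * n.ξ i]
  unfold tr
  rw [D.rt_sum, dotProduct_sum]
  refine Finset.sum_congr rfl fun a _ => ?_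
  exact Finset.sum_congr rfl fun i _ => mul_comm _ _

theorem sum_wtz_cast (p : Fin N) (x : ℂ) :
    (∑ k, (wtz n p k : ℂ)) * x = pr (-D.rt (n.e p) D.tr) (ln0 n x) := by
  have h1 : ∑ k, (wtz n p k : ℂ) = ((∑ k, wtz n p k : ℤ) : ℂ) := by push_cast; rfl
  rw [h1, sum_wtz, pr_line]
  congr 2
  unfold dotProduct
  rw [← Finset.sum_neg_distrib]
  refine Finset.sum_congr rfl fun i _ => ?_
  rw [Pi.neg_apply]
  ring

theorem pr_neg' (a : Fin r → ℤ) (y : Fin r → ℂ) : pr (-a) y = -pr a y := by
  unfold pr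
  rw [← Finset.sum_neg_distrib]
  refine Finset.sum_congr rfl fun i _ => ?_
  rw [Pi.neg_apply]
  push_cast
  ring

theorem Cq_diff (h t : Fin r → ℂ) (u v : D.W) : Differentiable ℂ fun y => D.Cq h t y u v := by
  have h1 : (fun y => D.Cq h t y u v) = fun y => D.E (D.ch h) t u v -
      if u = v then D.hv h u y else 0 := by
    funext y
    unfold Cq
    rw [Matrix.sub_apply, Matrix.diagonal_apply]
  rw [h1]
  refine (differentiable_const _).sub ?_
  by_cases huv : u = v
  · simp only [if_pos huv]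
    unfold hv yt
    fun_prop
  · simp only [if_neg huv]
    exact differentiable_const _

theorem line_diff : Differentiable ℂ (ln0 n) := by
  unfold ln0
  fun_prop

private theorem hv_line (h : Fin r → ℂ) (u : D.W) (x : ℂ) :
    D.hv h u (ln0 n x) = D.hv h u (ln0 n 1) * x := by
  unfold hv yt ln0
  rw [Finset.sum_mul]
  refine Finset.sum_congr rfl fun j _ => ?_
  rw [mul_assoc, Finset.sum_mul]
  congr 1
  refine Finset.sum_congr rfl fun i _ => ?_
  ring

theorem gg_line (p : Fin N) (x : ℂ) : D.gg t (n.e p) (ln0 n x) =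
    Complex.exp ((-D.hv t (n.e p) (ln0 n 1) + Real.pi * Complex.I * ∑ k, (wtz n p k : ℂ)) * x) *
      ∏ k, Complex.Gamma (1 - wtz n p k * x) := by
  unfold gg gam
  rw [← mul_assoc, ← Complex.exp_add]
  congr 1
  · congr 1
    rw [← sum_wtz_cast, hv_line n t]
    ring
  · rw [← prod_pe fun a => Complex.Gamma (1 + pr (D.rt (n.e p) a) (ln0 n x))]
    refine Finset.prod_congr rfl fun k _ => ?_
    rw [wtz_cast, sub_neg_eq_add]

theorem res_line (x : ℂ) (p a : D.W) :
    D.Rm (ln0 n x) p a = D.Rm (ln0 n 1) p a * x ^ D.len a := by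
  have h1 := D.Rm_homog x (ln0 n 1) p a
  rw [line_smul', mul_one] at h1
  rw [h1, mul_comm]

private theorem res_G {y : ℂ} (hy : y.im ≠ 0) (p i : Fin N) :
    ∑ a, D.Rm (ln0 n 1) (n.e p) (n.e a) * y ^ D.len (n.e a) * D.GM t (ln0 n y) (n.e a) (n.e i) =
    Complex.exp ((-D.hv t (n.e p) (ln0 n 1) + Real.pi * Complex.I * ∑ k, (wtz n p k : ℂ)) * y) *
      evZ y (resK n.ξ (D.Bk (n.e i) (n.e p))) * ∏ k, Complex.Gamma (1 - wtz n p k * y) := by
  have hy0 : y ≠ 0 := by
    rintro rfl
    exact hy rfl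
  have h1 := congrFun (congrFun (GM_res t (line_ne n hy0)) (n.e p)) (n.e i)
  rw [Matrix.mul_apply, Matrix.diagonal_mul, gg_line, ← Equiv.sum_comp n.e] at h1
  have h2 : ∀ a, D.Rm (ln0 n 1) (n.e p) (n.e a) * y ^ D.len (n.e a) =
      D.Rm (ln0 n y) (n.e p) (n.e a) := fun a => (res_line n y _ _).symm
  simp only [h2]
  rw [h1, evZ_resK]
  show _ * evK (ln0 n y) (D.Bk (n.e i) (n.e p)) = _
  unfold ln0
  ring

private theorem ξ_sign {b : Fin r → ℤ} (hb : b ∈ D.Φ) : 0 < ∑ i, b i * n.ξ i ↔ b ∈ D.Pos := by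
  have hpos : ∀ b ∈ D.Pos, 0 < ∑ i, b i * n.ξ i := by
    intro b hb
    have h1 : 0 ≤ ∑ i, b i * n.ξ i :=
      Finset.sum_nonneg fun i _ => mul_nonneg ((mem_Pos.1 hb).2 i) (n.ξ_pos i).le
    exact lt_of_le_of_ne h1 (ξ_ne n (mem_of_pos hb)).symm
  constructor
  · intro h
    by_contra hn
    have h1 := hpos _ ((not_pos_iff hb).1 hn)
    have h2 : ∑ i, (-b) i * n.ξ i = -∑ i, b i * n.ξ i := by
      rw [← Finset.sum_neg_distrib]
      exact Finset.sum_congr rfl fun i _ => by rw [Pi.neg_apply]; ring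
    rw [h2] at h1
    omega
  · exact hpos b

private theorem B_diag' (p : Fin N) : resK n.ξ (D.Bk (n.e p) (n.e p)) =
    ∏ k, if 0 < wtz n p k then 1 - LaurentPolynomial.T (wtz n p k) else 1 := by
  have h0 : ∀ a : Fin r → ℤ, -∑ i, D.rt (n.e p) a i * n.ξ i = ∑ i, (-D.rt (n.e p) a) i * n.ξ i := by
    intro a
    rw [← Finset.sum_neg_distrib]
    exact Finset.sum_congr rfl fun i _ => by rw [Pi.neg_apply]; ring
  rw [(isB_Bk (n.e p)).diag, map_prod]
  have h1 : (∏ k, if 0 < wtz n p k then 1 - LaurentPolynomial.T (wtz n p k) else 1 :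
      LaurentPolynomial ℤ) = ∏ a ∈ D.Pos, if -D.rt (n.e p) a ∈ D.Pos then
        1 - LaurentPolynomial.T (∑ i, (-D.rt (n.e p) a) i * n.ξ i) else 1 := by
    rw [← prod_pe fun a => (if -D.rt (n.e p) a ∈ D.Pos then
        1 - LaurentPolynomial.T (∑ i, (-D.rt (n.e p) a) i * n.ξ i) else 1 :
          LaurentPolynomial ℤ)]
    refine Finset.prod_congr rfl fun k _ => ?_
    unfold wtz
    rw [h0]
    exact if_congr (ξ_sign n (neg_mem (D.rt_mem.2 (mem_of_pos (pe D k).2)))) rfl rfl
  rw [h1, ← Finset.prod_filter]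
  refine Finset.prod_bij' (fun b _ => -D.rt (n.e p)⁻¹ b) (fun a _ => -D.rt (n.e p) a) ?_ ?_ ?_ ?_ ?_
  · intro b hb
    rw [Inv, Finset.mem_filter] at hb
    rw [Finset.mem_filter, D.rt_neg, D.rt_rt_inv, neg_neg]
    exact ⟨(not_pos_iff (D.rt_mem.2 (mem_of_pos hb.1))).1 hb.2, hb.1⟩
  · intro a ha
    rw [Finset.mem_filter] at ha
    rw [Inv, Finset.mem_filter, D.rt_neg, D.rt_inv_rt]
    exact ⟨ha.2, neg_not_pos ha.1⟩
  · intro b _
    rw [D.rt_neg, D.rt_rt_inv, neg_neg]
  · intro a _
    rw [D.rt_neg, D.rt_inv_rt, neg_neg]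
  · intro b _
    rw [map_sub, map_one, resK_chr, D.rt_neg, D.rt_rt_inv, neg_neg]

private theorem χ_loc' {y : ℂ} (hy : y.im ≠ 0) (i j : Fin N) :
    evZ y (resK n.ξ (D.chiM (n.e i) (n.e j))) =
      ∑ p, evZ (-y) (resK n.ξ (D.Bk (n.e i) (n.e p))) * evZ y (resK n.ξ (D.Bk (n.e j) (n.e p))) /
        ∏ k, (1 - Complex.exp (-(2 * Real.pi * Complex.I * y * wtz n p k))) := by
  have h1 := isChi_chiM (n.e i) (n.e j) (ln0 n y) (line_nint n hy)
  rw [evZ_resK]
  have h2 : evK (fun k => y * (n.ξ k : ℂ)) (D.chiM (n.e i) (n.e j)) =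
      evK (ln0 n y) (D.chiM (n.e i) (n.e j)) := rfl
  rw [h2, h1]
  unfold KSum
  rw [← Equiv.sum_comp n.e]
  refine Finset.sum_congr rfl fun p _ => ?_
  rw [map_mul, evK_sK, evZ_resK, evZ_resK]
  have h3 : (-ln0 n y : Fin r → ℂ) = fun k => -y * (n.ξ k : ℂ) := by
    funext k
    simp [ln0]
  rw [h3]
  have h4 : (∏ a ∈ D.Pos, (1 - Complex.exp (2 * Real.pi * Complex.I *
      pr (D.rt (n.e p) a) (ln0 n y)))) =
      ∏ k, (1 - Complex.exp (-(2 * Real.pi * Complex.I * y * wtz n p k))) := by
    rw [← prod_pe fun a => 1 - Complex.exp (2 * Real.pi * Complex.I *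
      pr (D.rt (n.e p) a) (ln0 n y))]
    refine Finset.prod_congr rfl fun k _ => ?_
    congr 2
    have := wtz_cast n p k y
    linear_combination (2 * Real.pi * Complex.I) * this
  rw [h4]
  rfl

private theorem C_self' (x : ℂ) : (D.Pg (ln0 n x)).submatrix n.e n.e *
    (D.Cq D.ctr t (ln0 n x)).submatrix n.e n.e =
    ((D.Cq D.ctr t (ln0 n x)).submatrix n.e n.e).transpose *
      (D.Pg (ln0 n x)).submatrix n.e n.e := by
  rw [Matrix.transpose_submatrix, Matrix.submatrix_mul_equiv, Matrix.submatrix_mul_equiv, Pg_self]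

private theorem th_eq (p : Fin N) : D.th (n.e p) = (D.dm : ℂ) / 2 - D.len (n.e p) := rfl

theorem exists_GQ : ∃ T : GQ N, T.dim = D.dm ∧ T.deg = (fun p => D.len (n.e p)) ∧
    T.C = (fun x => (D.Cq D.ctr t (ln0 n x)).submatrix n.e n.e) ∧
    T.g = (fun x => (D.Pg (ln0 n x)).submatrix n.e n.e) ∧
    T.χ = (Matrix.of fun i j => resK n.ξ (D.chiM (n.e i) (n.e j))) ∧
    ∀ w, T.J 0 w = (toFro n t).J0 (toFro n t).G 0 w := by
  set S : ℂ → ℂ → Matrix (Fin N) (Fin N) ℂ := fun x z =>
    (exists_shift n t n.ξ).choose (ln0 n x) z with hS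
  have hScd : ∀ i j, ContDiff ℂ 1 fun p : ℂ × ℂ => S p.1 p.2 i j := by
    intro i j
    have h1 := (exists_shift n t n.ξ).choose_spec.1 i j
    have h2 : ContDiff ℂ 1 fun p : ℂ × ℂ => ((ln0 n p.1 : Fin r → ℂ), p.2) := by
      unfold ln0
      fun_prop
    exact h1.comp h2
  obtain ⟨J, cal, hJ1, hJ2, hJ3, hc1, hJ4, hJ0⟩ := exists_JQ (toFro n t)
    (fun x => (D.Cq D.ctr t (ln0 n x)).submatrix n.e n.e)
    (fun i j => ((Cq_diff D.ctr t _ _).comp (line_diff n)).continuous) S
    (fun i j => (hScd i j).continuous) (by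
      intro k m
      obtain ⟨μ, hμ⟩ := exists_prim k.2
      refine ⟨m • μ, ?_⟩
      have h1 : ∑ i, (toFro n t).wt k i * (m • μ) i = m * dotProduct μ k.1 := by
        unfold dotProduct
        rw [Finset.mul_sum]
        refine Finset.sum_congr rfl fun i _ => ?_
        show k.1 i * (m • μ) i = _
        rw [Pi.smul_apply, smul_eq_mul]
        ring
      rw [h1, hμ, mul_one]) (by
      intro y w i j
      have h1 := D.C_graded t (ln0 n y) w (n.e i) (n.e j)
      rw [line_smul] at h1
      exact h1) (by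
      intro y w
      show (exists_shift n t n.ξ).choose (fun i => ln0 n y i * Complex.exp w) _ = _
      rw [line_smul])
  refine ⟨{ dim := D.dm
            deg := fun p => D.len (n.e p)
            C := fun x => (D.Cq D.ctr t (ln0 n x)).submatrix n.e n.e
            C_hol := fun i j => (Cq_diff D.ctr t _ _).comp (line_diff n)
            K := D.KK
            Cg := fun k x => (D.Cg t k (ln0 n x)).submatrix n.e n.e
            C_graded := by
              intro y w i j
              have h1 := D.C_graded t (ln0 n y) w (n.e i) (n.e j)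
              rw [line_smul] at h1
              exact h1
            g := fun x => (D.Pg (ln0 n x)).submatrix n.e n.e
            g_hol := fun i j => (Pg_diff _ _).comp (line_diff n)
            g_hom := by
              intro y w i j
              have h1 := D.Pg_homog (Complex.exp w) (ln0 n y) (n.e i) (n.e j)
              rw [line_smul', mul_comm (Complex.exp w) y] at h1
              show D.Pg (ln0 n (y * Complex.exp w)) (n.e i) (n.e j) = _
              have h2 : Complex.exp w ^ D.dm ≠ 0 := pow_ne_zero _ (Complex.exp_ne_zero _)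
              apply mul_left_cancel₀ h2
              rw [h1]
              show _ = Complex.exp w ^ D.dm * (Complex.exp (w * (((D.len (n.e i) : ℕ) : ℂ) +
                (D.len (n.e j) : ℕ) - (D.dm : ℕ))) * D.Pg (ln0 n y) (n.e i) (n.e j))
              rw [← mul_assoc, ← Complex.exp_nat_mul, ← Complex.exp_nat_mul, ← Complex.exp_add]
              congr 2
              push_cast
              ring
            g_symm := fun x => by rw [Matrix.transpose_submatrix, Pg_symm]
            g_det := fun x => by rw [Matrix.det_submatrix_equiv_self]; exact Pg_det _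
            C_self := C_self' n t
            wt := wtz n
            wt_ne := wtz_ne n
            strict := by
              have h1 : (fun p => ∑ k, wtz n p k) = fun p =>
                  -dotProduct n.ξ (D.rt (n.e p) D.tr) := funext fun p => sum_wtz n p
              rw [h1]
              exact n.mono
            res := fun p a => D.Rm (ln0 n 1) (n.e p) (n.e a)
            res_C := by
              intro y p b
              have h1 := congrFun (congrFun (D.Rm_C0 D.ctr (ln0 n y)) (n.e p)) (n.e b)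
              rw [Matrix.mul_apply, Matrix.diagonal_mul, ← Equiv.sum_comp n.e, hv_ctr] at h1
              have h2 : ∀ a, D.Rm (ln0 n 1) (n.e p) (n.e a) * y ^ D.len (n.e a) =
                  D.Rm (ln0 n y) (n.e p) (n.e a) := fun a => (res_line n y _ _).symm
              have h3 : D.Cg t 0 (ln0 n y) = D.C0 D.ctr (ln0 n y) := if_pos rfl
              simp only [h2, h3, sum_wtz_cast]
              rw [pr_neg']
              exact h1
            localization := by
              intro a b
              show D.Pg (ln0 n 1) (n.e a) (n.e b) = _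
              rw [Pg_loc (line_ne n one_ne_zero), ← Equiv.sum_comp n.e]
              refine Finset.sum_congr rfl fun p _ => ?_
              congr 1
              rw [← prod_pe fun a => -pr (D.rt (n.e p) a) (ln0 n 1)]
              refine Finset.prod_congr rfl fun k _ => ?_
              rw [← wtz_cast, mul_one]
            tp := fun p => -D.hv t (n.e p) (ln0 n 1)
            B := fun i p => resK n.ξ (D.Bk (n.e i) (n.e p))
            B_tri := fun i p h => by rw [Bk_tri n h, map_zero]
            B_diag := B_diag' n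
            χ := Matrix.of fun i j => resK n.ξ (D.chiM (n.e i) (n.e j))
            χ_unit := by
              have h1 : (Matrix.of fun i j => resK n.ξ (D.chiM (n.e i) (n.e j)) :
                  Matrix (Fin N) (Fin N) (LaurentPolynomial ℤ)) =
                  ((Matrix.of fun i j => D.chiM i j : Matrix D.W D.W (RH r)).map
                    (resK n.ξ)).submatrix n.e n.e := by
                ext i j
                rfl
              rw [h1, Matrix.det_submatrix_equiv_self]
              have h2 := RingHom.map_det (resK n.ξ)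
                (Matrix.of fun i j => D.chiM i j : Matrix D.W D.W (RH r))
              rw [RingHom.mapMatrix_apply] at h2
              rw [← h2]
              exact (chiM_unit D).map _
            χ_loc := fun y hy i j => χ_loc' n hy i j
            S := S
            S_cd := hScd
            S_det := fun x z => (exists_shift n t n.ξ).choose_spec.2.1 _ _
            J := J
            J_entire := hJ1
            J_ode := hJ2
            J_shift := hJ3
            cal := cal
            cal_lim := hc1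
            G := fun y => (D.GM t (ln0 n y)).submatrix n.e n.e
            G_res := fun y hy p i => res_G n t hy p i
            J_gamma := hJ4 }, rfl, rfl, rfl, rfl, rfl, hJ0⟩

end Pool.Agent.FLG.RS
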