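import Pool.Agent.FLG.Fin.Gq
import Pool.Agent.FLG.M.Tr

/-!
# FLG-Fin-Main: monodromy data of the quantum connection of the flag variety
-/

set_option autoImplicit false

open scoped BigOperators Topology
open Filter
open Pool.Agent.DST Pool.Agent.DST.TE Pool.Agent.DSTJ Pool.Agent.DSTJ.Spec Pool.Agent.FLG.Dl
open Pool.Agent.FLG.Mo

namespace Pool.Agent.FLG.RS

variable {r : ℕ}

/-- The first structure connection of the flag variety at the point `t ∈ H^2`, in the basis of the
Schubert classes. -/
noncomputable def smallF (D : RS r) (t : Fin r → ℂ) : Small D.W where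
  dim := D.dm
  deg := D.len
  pair := Matrix.of fun u v => if u = D.w0 * v then 1 else 0
  cup := D.E0 (D.ch D.ctr)
  mul := D.E (D.ch D.ctr) t

variable {D : RS r} {N : ℕ} (n : D.Num N) (t : Fin r → ℂ)

private theorem hv_zero (h : Fin r → ℂ) (u : D.W) : D.hv h u 0 = 0 := by
  unfold hv
  rw [D.yt_zero]
  simp

private theorem Cq_zero (h t : Fin r → ℂ) : D.Cq h t 0 = D.E (D.ch h) t := by
  unfold Cq
  rw [show (fun u => D.hv h u 0) = fun _ => (0 : ℂ) from funext fun u => hv_zero h u]
  rw [show (Matrix.diagonal fun _ : D.W => (0 : ℂ)) = 0 from Matrix.diagonal_zero, sub_zero]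

private theorem Cg_zero (t : Fin r → ℂ) : D.Cg t 0 0 = D.E0 (D.ch D.ctr) := by
  rw [← C0_zero]
  exact if_pos rfl

private theorem Pg_zero' : D.Pg 0 = (smallF D t).pair := by
  ext u v
  exact Pg_zero u v

theorem ok_smallF (D : RS r) (t : Fin r → ℂ) : Ok (smallF D t) where
  symm := by rw [← Pg_zero', Pg_symm]
  det := by rw [← Pg_zero']; exact Pg_det 0
  deg := by
    intro a b hab
    have h1 : a = D.w0 * b := by
      by_contra hne
      exact hab (if_neg hne)
    show D.len a + D.len b = D.dm
    rw [h1, len_w0_mul]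
  self := by
    rw [← Pg_zero']
    show (D.E (D.ch D.ctr) t).transpose * D.Pg 0 = D.Pg 0 * D.E (D.ch D.ctr) t
    rw [← Cq_zero, ← Pg_self]
  cup_deg := fun a b hab => E0_ne hab

private theorem nr_zero : (toBase n t).NR 0 := by
  intro p q m hm h
  have h0 : ∀ a : Fin r → ℤ, pr a (0 : Fin r → ℂ) = 0 := fun a => by simp [pr]
  rw [h0, h0, sub_zero] at h
  exact hm (by exact_mod_cast h.symm)

/-- the standard solution -/
noncomputable def Zst (w : ℂ) : Matrix D.W D.W ℂ :=
  ((toBase n t).J0 (fun _ => 1) 0 w).submatrix n.e.symm n.e.symm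

private theorem C0_base : (toBase n t).C 0 0 = (smallF D t).cup.submatrix n.e n.e := by
  show (D.Cg t 0 0).submatrix n.e n.e = _
  rw [Cg_zero]
  rfl

private theorem θ_base : Matrix.diagonal (toBase n t).θ = (smallF D t).theta.submatrix n.e n.e := by
  unfold Small.theta
  rw [Matrix.submatrix_diagonal_equiv]
  rfl

private theorem sub_sub {ι κ : Type} (e : κ ≃ ι) (A : Matrix κ κ ℂ) :
    (A.submatrix e.symm e.symm).submatrix e e = A := by
  ext a b
  simp

private theorem sub_sub' {ι κ : Type} (e : κ ≃ ι) (A : Matrix ι ι ℂ) :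
    (A.submatrix e e).submatrix e.symm e.symm = A := by
  ext a b
  simp

theorem isStandard_Zst : IsStandard (smallF D t) (Zst n t) := by
  constructor
  · have h1 : (toMS (smallF D t) (ok_smallF D t) n.e).Sol ((toBase n t).J0 (fun _ => 1) 0) := by
      intro w i j
      have h2 := (toBase n t).J0_ode (G := fun _ => 1) (nr_zero n t)
        (fun w => (smallF D t).mul.submatrix n.e n.e) (by
          intro w i j
          have h3 := D.C_graded t 0 w (n.e i) (n.e j)
          have h4 : (fun i => (0 : Fin r → ℂ) i * Complex.exp w) = 0 := by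
            funext i
            simp
          rw [h4, Cq_zero] at h3
          exact h3) w i j
      rw [toMS_θ, ← θ_base]
      exact h2
    exact sol_sub (ok_smallF D t) n.e n.e.symm h1
  · refine ⟨fun z => ((toBase n t).cal 0 z⁻¹).submatrix n.e.symm n.e.symm, ?_, ?_⟩
    · intro i j
      have h1 := (toBase n t).cal_lim (nr_zero n t) (n.e.symm i) (n.e.symm j)
      have h2 : (1 : Matrix (Fin N) (Fin N) ℂ) (n.e.symm i) (n.e.symm j) =
          (1 : Matrix D.W D.W ℂ) i j := by
        rw [Matrix.one_apply, Matrix.one_apply]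
        exact if_congr n.e.symm.injective.eq_iff rfl rfl
      rw [h2] at h1
      exact h1
    · intro w
      unfold Zst Base.J0
      have e1 : w • (smallF D t).theta.submatrix n.e n.e =
        (w • (smallF D t).theta).submatrix n.e n.e := rfl
      have e2 : -w • (smallF D t).cup.submatrix n.e n.e =
        (-w • (smallF D t).cup).submatrix n.e n.e := rfl
      rw [mul_one, C0_base, θ_base, e1, e2, ← exp_sub,
        ← exp_sub, ← Matrix.submatrix_mul_equiv _ _ n.e.symm n.e.symm n.e.symm,
        ← Matrix.submatrix_mul_equiv _ _ n.e.symm n.e.symm n.e.symm, sub_sub', sub_sub',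
        Complex.exp_neg]

/-- The columns of `X_-` are the `Γ`-solutions of a basis of `K`-theory, the Stokes matrix is the
Gram matrix of the Euler form, and the connection matrix is given by the `Γ`-class. -/
theorem main_flag (M : MonodromyData (smallF D t) N) :
    ∃ U : Matrix (Fin N) (Fin N) ℤ, IsUnit U.det ∧
      M.S = (U.map (Int.castRingHom ℂ)).transpose *
        (Matrix.of fun i j => evK 0 (D.chiM (n.e i) (n.e j))) * U.map (Int.castRingHom ℂ) ∧
      (∀ w, M.Xminus w = (Complex.I / (Real.sqrt (2 * Real.pi) : ℂ)) ^ D.dm •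
        (Zst n t w * (D.GM t 0).submatrix id n.e * U.map (Int.castRingHom ℂ))) ∧
      ∃ K : Matrix D.W D.W ℂ, K * (smallF D t).cup = (smallF D t).cup * K ∧ K.det ≠ 0 ∧
        (∀ w, zSol (smallF D t) M.𝒮 w = Zst n t w * K) ∧
        K * M.C = (Complex.I / (Real.sqrt (2 * Real.pi) : ℂ)) ^ D.dm •
          ((D.GM t 0).submatrix id n.e * U.map (Int.castRingHom ℂ)) := by
  obtain ⟨T, h1, h2, h3, h4, h5, h6⟩ := exists_GQ n t
  have hl0 : ln0 n 0 = 0 := by
    funext i
    simp [ln0]
  have hlim : IsLimS T (smallF D t) n.e :=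
    { dim := h1.symm
      deg := fun p => by rw [h2]; rfl
      mul := by
        rw [h3]
        show _ = (D.Cq D.ctr t (ln0 n 0)).submatrix n.e n.e
        rw [hl0, Cq_zero]
        rfl
      pair := by
        rw [h4]
        show _ = (D.Pg (ln0 n 0)).submatrix n.e n.e
        rw [hl0, Pg_zero' t] }
  have hJ : ∀ w, T.J 0 w = (Zst n t w * (D.GM t 0).submatrix id n.e).submatrix n.e id := by
    intro w
    rw [h6]
    have h7 : (toFro n t).J0 (toFro n t).G 0 w =
        (toBase n t).J0 (fun _ => 1) 0 w * (D.GM t 0).submatrix n.e n.e := by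
      show (toBase n t).J0 _ 0 w = _
      unfold Base.J0
      rw [mul_one]
      rfl
    rw [h7]
    unfold Zst
    rw [← Matrix.submatrix_mul_equiv _ _ n.e n.e id, sub_sub]
    rfl
  obtain ⟨U, hU, hS, hX, K, hK⟩ := main_small hlim (ok_smallF D t) (isStandard_Zst n t) hJ M
  refine ⟨U, hU, ?_, hX, K, hK⟩
  rw [hS, h5]
  congr 2
  ext i j
  show evZ 0 (resK n.ξ (D.chiM (n.e i) (n.e j))) = evK 0 (D.chiM (n.e i) (n.e j))
  have h8 : (fun k => (0 : ℂ) * (n.ξ k : ℂ)) = (0 : Fin r → ℂ) := by
    funext k
    simp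
  rw [evZ_resK, h8]

include n in
/-- Existence of monodromy data. -/
theorem exists_data_flag (hsep : (smallF D t).mul.charpoly.Separable) {φ : ℝ}
    (hφ : IsAdmissible (smallF D t) φ) : ∃ M : MonodromyData (smallF D t) N, M.φ = φ := by
  obtain ⟨T, h1, h2, h3, h4, h5, h6⟩ := exists_GQ n t
  have hl0 : ln0 n 0 = 0 := by
    funext i
    simp [ln0]
  have hlim : IsLimS T (smallF D t) n.e :=
    { dim := h1.symm
      deg := fun p => by rw [h2]; rfl
      mul := by
        rw [h3]
        show _ = (D.Cq D.ctr t (ln0 n 0)).submatrix n.e n.e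
        rw [hl0, Cq_zero]
        rfl
      pair := by
        rw [h4]
        show _ = (D.Pg (ln0 n 0)).submatrix n.e n.e
        rw [hl0, Pg_zero' t] }
  refine exists_data_small hlim (ok_smallF D t) (fun d => D.Cg t d 0) D.KK (Cg_zero t) ?_
    (fun d hd => Cg_big t hd 0) ?_ hsep hφ
  · intro d i j hd
    show D.len i + d = D.len j + 1
    by_cases h0 : d = 0
    · subst h0
      rw [Cg_zero] at hd
      exact E0_ne hd
    · have h8 : D.Cg t d 0 = D.Eq (D.ch D.ctr) t d := if_neg h0
      rw [h8] at hd
      exact_mod_cast Eq_ne hd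
  · ext i j
    have h9 := D.C_graded t 0 0 i j
    have h10 : (fun i => (0 : Fin r → ℂ) i * Complex.exp 0) = 0 := by
      funext i
      simp
    rw [h10, Cq_zero, neg_zero, Complex.exp_zero, one_mul] at h9
    show D.E (D.ch D.ctr) t i j = _
    rw [h9, Matrix.sum_apply]
    refine Finset.sum_congr rfl fun k _ => ?_
    rw [mul_zero, neg_zero, zero_mul, Complex.exp_zero, one_mul, one_mul]

end Pool.Agent.FLG.RS
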